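import Pool.Agent.Lib_helper9.LOT.Lower

/-!
# Whitehead asphericity for almost all labelled oriented trees

For every oriented tree with `n` edges and bounded degree, all but a proportion `O(1/n)` of the
reduced labelings give a labelled oriented tree whose 2-complex is diagrammatically reducible, in
particular aspherical.
-/

set_option autoImplicit false

open RLT

namespace Pool.Agent.Results.MP_75ccdc_gt.AlmostAllTrees

/-- Let `T` be any tree with vertices `0, …, n` and `n` edges, numbered so that the edge `j` joins
`j + 1` to `p j ≤ j`, with any orientation `o`, and such that every vertex is `p j` for at most `D`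
edges `j`. The number of reduced labelings is at least `(n - 1 - 2 D) ^ n`, and at most the fraction
`10 ^ 27 (D + 1) ^ 13 / (n + 1)` of the reduced labelings give a 2-complex which is not
diagrammatically reducible. -/
theorem result (n D : ℕ) (p : Fin n → Fin (n + 1)) (hp : ∀ j, (p j : ℕ) ≤ j)
    (o : Fin n → Bool) (hD : ∀ v, Nat.card {j // p j = v} ≤ D) :
    (n - 1 - 2 * D) ^ n ≤
      Nat.card {lab : Fin n → Fin (n + 1) // (tree p o lab).Reduced} ∧
    (n + 1) * Nat.card {lab : Fin n → Fin (n + 1) //
        (tree p o lab).Reduced ∧ ¬ DR (tree p o lab)} ≤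
      10 ^ 27 * (D + 1) ^ 13 *
        Nat.card {lab : Fin n → Fin (n + 1) // (tree p o lab).Reduced} := by
  classical
  have hD' : ∀ v, (Finset.univ.filter fun j => p j = v).card ≤ D := by
    intro v
    have := hD v
    rwa [Nat.card_eq_fintype_card, Fintype.card_subtype] at this
  have e1 : Nat.card {lab : Fin n → Fin (n + 1) // (tree p o lab).Reduced} =
      (redLabs p o).card := by
    rw [Nat.card_eq_fintype_card, Fintype.card_subtype]
    rfl
  have e2 : Nat.card {lab : Fin n → Fin (n + 1) //
      (tree p o lab).Reduced ∧ ¬ DR (tree p o lab)} = (badLabs p o).card := by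
    rw [Nat.card_eq_fintype_card, Fintype.card_subtype]
    rfl
  rw [e1, e2]
  exact ⟨le_card_redLabs p o D hD', main p hp o D hD'⟩

end Pool.Agent.Results.MP_75ccdc_gt.AlmostAllTrees
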